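import Pool.Agent.Lib.MP_666dc0_nt.CL.Main

open NumberField IsDedekindDomain TensorProduct Pool.Agent.Lib.MP_666dc0_nt
  Pool.Agent.Lib.MP_666dc0_nt.WL Pool.Agent.Lib.MP_666dc0_nt.ZO Pool.Agent.Lib.MP_666dc0_nt.FM
  Pool.Agent.Lib.MP_666dc0_nt.CL
open scoped NumberField TensorProduct

namespace Pool.Agent.Results.MP_666dc0_nt.CohomologyFamilies

/-- **Families of Hecke eigensystems in the cohomology of arithmetic groups, and the conjecture of
Buzzard and Gee.**

`F` is a number field and `G ⊆ GL_n` the group over `F` of all matrices that fix a non-degenerate bilinear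
form `q` and finitely many tensors (the datum `D`), such that the `SL_n(F ⊗ ℝ)`-orbit of the form and the
tensors is closed (`ClosedOrbit`; so `G` is reductive, there is no condition at infinity, and every
reductive group can be given in this way). `Ĝ = Spec O`, `ᴸG = Ĝ ⋊ Γ_F`, the finite set `S` of places (all
places above the prime `ℓ` are in it), Frobenius elements `φ v`, a tame level `U` which is good outside `S`,
and arbitrary maps `sat v` from the invariant functions on `Ĝ ⋊ φ v` (`InvFun`) to the `ℓ`-integral Hecke
operators are as in the other hand-ins. `K 0 ≥ K 1 ≥ …` are levels at `ℓ`: `K 0` is a uniform pro-`ℓ` group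
of dimension `d`, with the filtration `K s = (K 0) ^ (ℓ ^ s)` (`IsUniform`). `Q` runs through all
finite-dimensional spaces of polynomial functions on `G(F ⊗ ℂ)` that are stable under right translations
(for example an irreducible representation, as the matrix coefficients in a row), `J` through all levels at
`ℓ`.

`H^m(Q, J)` is the cohomology of degree `m` of `G(F)` with values in the functions
`f : G(𝔸_f) → Q`, `f(g u) = f(g)` for `u ∈ U J`, with `(γ f)(γ g)(x) = f(g)(x γ)`: the sum of the groups
`H^m(Γ_i, Q)` for the arithmetic groups `Γ_i` of level `U J`. It is given by homogeneous cochains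
(`Coch`, `del`, `dimH`). The Hecke operators outside `S` act on it, and `CSys` is the set of the systems of
eigenvalues of the eigenclasses, for all `Q` and all `J ⊆ K 0`. Put `w = [K 0 : J] dim Q`. A class is of
order at most `N` for the system `lam` if it is killed by all products of `N` operators `T_h - lam_h`
(`IsOrd`; for `N = 1` it is an eigenclass or zero).

Let `ι : ℂ ≅ ℚ̄_ℓ`. A property of systems is closed (`IsClosedC`) if it is stable under `ℓ`-adic
interpolation: a system `lam` has it if for every `ε > 0` there are finitely many systems `e` with the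
property and `δ > 0` such that `|ι P(e)| ≤ δ` for these `e` implies `|ι P(lam)| ≤ ε`, for all integral
polynomials `P` in the `ℓ`-integral Hecke operators outside `S`.

(1) The existence of an attached homomorphism `Γ_F → ᴸG(ℚ̄_ℓ)` (`HasGal`) is a closed property, for every
`ᴸG` and `sat`. No finiteness or vanishing of the cohomology with torsion coefficients, no Galois
representations and no freeness are assumed. The vanishing of a polynomial in the Hecke operators is a
closed property.

(2) In every degree `m` there are finitely many non-empty closed families `C_1, …, C_k` of systems, with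
integral multiplicities `a_i ≥ 1` and sum `r_m`, such that `H^m(Q, J)` has the dimension
`(r_m + O(ℓ ^ (-s))) w` for all `s`, all `J ⊆ K s` and ALL `Q`, and for EVERY closed property `p`, with
`a(p) = ∑_{C_i ⊆ p} a_i`, there is a constant `c` such that, for all `s`, all `J ⊆ K s`, all `Q` and all `N`,
* the classes of order `≤ N` with the property `p` span a space of dimension `≤ (a(p) + N c ℓ ^ (-s)) w`
  in `H^m(Q, J)`,
* the generalised eigenclasses with the property `p` span a space of dimension `≥ (a(p) - c ℓ ^ (-s)) w`,
* those without the property `p` span a space of dimension `≤ (r_m - a(p) + c ℓ ^ (-s)) w`.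

So the generalised eigenclasses with the property `p` span `(a(p) + o(1)) w`, if the orders are `o(ℓ ^ s)`
(by a theorem of Franke the orders are bounded; this is not used here).

(3) `H^m(Q, J) = 0` for all large `m`, and for all `J ⊆ K s₀` and ALL `Q` the Euler characteristic is
exactly `∑ (-1) ^ m dim H^m(Q, J) = (∑ (-1) ^ m r_m) w` (`IsEuler`). So if it is not zero, for one weight and
one deep level, there are families in some degree `m`, and (2) and (4) are not void for this `m`.

(4) A ladder with integral steps for the existence of Galois representations: for every degree `m` and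
every integer `b ≥ 0` there is a constant `c` such that one of two things is true. In ALL weights and ALL
levels `J ⊆ K s` the classes of order `≤ N` with an attached homomorphism span at most
`(b + N c ℓ ^ (-s)) w`, for all `N`; or in ALL weights and ALL levels `J ⊆ K s` the generalised eigenclasses
with an attached homomorphism span at least `(b + 1 - c ℓ ^ (-s)) w`. For `b = 0`: if the eigenclasses with
an attached homomorphism span more than `c ℓ ^ (-s) w` in ONE weight and ONE level, then in ALL weights and
levels the generalised eigenclasses with an attached homomorphism span at least `(1 - c ℓ ^ (-s)) w`. For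
`b = r_m - 1`, `r_m ≥ 1`: if the eigenclasses with an attached homomorphism span more than
`(r_m - 1 + c ℓ ^ (-s)) w` in ONE weight and ONE level, then `a(p) = r_m` for this property `p`, all members
of all families have an attached homomorphism, and in ALL weights and levels the generalised eigenclasses
without attached homomorphism span at most `c ℓ ^ (-s) w`.

By theorems of Lück and Borel (not used here) `r_m` is positive exactly if `G(F ⊗ ℝ)` has a discrete series
modulo the `ℚ`-split centre and `m` is the middle degree, as for `Sp_{2g}`, `GSp_{2g}`, `U(p, q)`, and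
`SO(p, q)` with `p q` even; for `r_m = 0` the theorem says that `dim H^m(Q, J) = O(ℓ ^ (-s)) w`. The
asymptotic dimension in a fixed weight is in Calegari and Emerton, Bounds for multiplicities of unitary
representations of cohomological type in spaces of cusp forms (2009). The hand-in `Families` is about
degree `0` and definite groups, where the spaces are free over the completed group ring and the Hecke
operators are semisimple. -/
theorem result {F : Type} [Field F] [NumberField F] {n : ℕ} (D : Datum F n) (hq : D.q.det ≠ 0)
    (hcl : ClosedOrbit D) (ℓ : ℕ) [Fact ℓ.Prime]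
    {B : Type} [CommRing B] [IsDomain B] [IsPrincipalIdealRing B] [Algebra B ℚ]
    [IsFractionRing B ℚ] [Algebra B (PadicAlgCl ℓ)]
    {O : Type} [CommRing O] [HopfAlgebra B O] [Algebra.FiniteType B O] [Module.Free B O]
    (hO : LinearlyReductive (ℚ ⊗[B] O)) (A : OverB.HopfAction B Gal(AlgebraicClosure F/F) O)
    (hA : IsOpen (A.act.ker : Set Gal(AlgebraicClosure F/F)))
    (S : Finset (HeightOneSpectrum (𝓞 F)))
    (hS : ∀ v, v ∉ S → ∀ P u, IsInertiaAt v P u → A.act u = 1)
    (hSl : ∀ v : HeightOneSpectrum (𝓞 F), (ℓ : 𝓞 F) ∈ v.asIdeal → v ∈ S)
    (φ : HeightOneSpectrum (𝓞 F) → Gal(AlgebraicClosure F/F))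
    (hφ : ∀ v, v ∉ S → ∃ P : Ideal (𝓞 (AlgebraicClosure F)), IsOver v P ∧
      (IsFrob v P (φ v) ∨ IsFrob v P (φ v)⁻¹))
    (U : Subgroup D.Ad) (hU : IsTame ℓ U) (hUS : ∀ v, v ∉ S → IsGoodAt U v)
    (sat : ∀ v, InvFun A (φ v) → Hecke U v) (hsat : ∀ v f, (sat v f).IsIntegral ℓ)
    (d : ℕ) (K : ℕ → Subgroup D.Ad) (hK : IsUniform ℓ d U K) (ι : ℂ ≃+* PadicAlgCl ℓ) :
    (∀ m, IsClosedC ℓ S ι U (K 0) m (HasGal ℓ A S φ sat ι)) ∧
    (∀ m (P : MvPolynomial (IX ℓ S U) ℤ),
      IsClosedC ℓ S ι U (K 0) m fun lam => pval ℓ S lam P = 0) ∧
    ∃ (k : ℕ → ℕ) (C : ∀ m, Fin (k m) → Set (HSys U)) (a : ∀ m, Fin (k m) → ℕ),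
      (∀ m, IsFamiliesC ℓ S U K ι m (C m) (a m)) ∧ (IsEuler ℓ U K fun m => ∑ i, a m i) ∧
      ∀ m b, AtMostN ℓ U K (fun N Q J => dimOrd ℓ S Q U J m N (HasGal ℓ A S φ sat ι)) b ∨
        AtLeast ℓ U K (fun Q J => dimGen ℓ S Q U J m (HasGal ℓ A S φ sat ι)) (b + 1) :=
  main D hq hcl ℓ hO A hA S hS hSl φ hφ U hU hUS sat hsat d K hK ι

end Pool.Agent.Results.MP_666dc0_nt.CohomologyFamilies
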