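import Pool.Agent.Lib.MP_666dc0_nt.FM.V

open NumberField IsDedekindDomain TensorProduct Pool.Agent.Lib.MP_666dc0_nt
  Pool.Agent.Lib.MP_666dc0_nt.WL Pool.Agent.Lib.MP_666dc0_nt.ZO Pool.Agent.Lib.MP_666dc0_nt.FM
open scoped NumberField TensorProduct

namespace Pool.Agent.Results.MP_666dc0_nt.Families

/-- **Families of Hecke eigensystems on groups that are compact at infinity, and the conjecture of Buzzard and Gee.**

`F` is a totally real number field and `G ⊆ GL_n` the group over `F` of all matrices that fix a symmetric
matrix `q`, totally positive definite, and finitely many tensors (the datum `D`). `Ĝ = Spec O`, `ᴸG = Ĝ ⋊ Γ_F`,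
the finite set `S` of places (all places above the prime `ℓ` are in it), Frobenius elements `φ v`, a tame level `U`
which is good outside `S`, and maps `sat v` from the invariant functions on `Ĝ ⋊ φ v` (`InvFun`) to the `ℓ`-integral
Hecke operators are as in the hand-in WeightLevel. `K 0 ≥ K 1 ≥ …` are levels at `ℓ`: `K 0` is a uniform pro-`ℓ` group
of dimension `d`, congruent to `1` modulo `ℓ²`, with the filtration `K s = (K 0) ^ (ℓ ^ s)`, which is given by the
structure `IsUniform`. `Q` runs through all finite-dimensional spaces of polynomial functions on `G(F ⊗ ℂ)` that are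
stable under right translations (for example the matrix coefficients in a row of an irreducible representation), `J`
through the levels at `ℓ`; `AllSys` is the set of the systems of Hecke eigenvalues (outside `S`) of the eigenforms of tame
level `U`, of all weights and all levels at `ℓ`. No Galois representations, and no finiteness properties of Hecke
algebras, are assumed.

Let `ι : ℂ ≅ ℚ̄_ℓ`. A property of systems is closed if it is stable under `ℓ`-adic interpolation: a system `lam` has it if
for every `ε > 0` there are finitely many systems `e` with the property and `δ > 0` such that `|ι P(e)| ≤ δ` for these `e`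
implies `|ι P(lam)| ≤ ε`, for all integral polynomials `P` in the `ℓ`-integral Hecke operators outside `S` (`IsClosedProp`;
the closed sets are the zero sets of ideals in the `ℓ`-adic completion of the Hecke algebra).

(1) The set of all systems is the union of finitely many closed irreducible families `C_1, …, C_k`, with integral
multiplicities `a_j ≥ 1` whose sum `r` is the dimension of the span of the eigenforms of weight zero and level `U K_0`,
and for EVERY closed property `p` there is `C` such that for ALL `s`, ALL levels `J ⊆ K_s` at `ℓ` and ALL `Q` the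
eigenforms with weights in `Q` and level `U J` which have the property `p` span a space of dimension
`(∑_{C_j ⊆ p} a_j) [K_0 : J] dim Q`, up to an error `≤ C ℓ ^ (-s) [K_0 : J] dim Q` (`IsFamilies`). The families and their
multiplicities are unique, up to their order. Descending chains of closed properties are stationary (`IsNoeth`).

(2) The existence of an attached homomorphism `Γ_F → ᴸG(ℚ̄_ℓ)` (`HasAtt`) is a closed property, for every `ᴸG` and `sat`,
and so is the vanishing of a polynomial in the Hecke operators. So the density of the eigenforms with an attached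
homomorphism exists and is `a / r` with an integer `a`; each family consists of forms with attached homomorphisms, or
those of its forms which have one are of lower density; and if the eigenforms with attached homomorphism are more than
the share `1 - 1 / r + C ℓ ^ (-s)` in ONE weight and ONE level `J ⊆ K_s`, then all eigenforms have one.

(3) All eigenforms with weights in `Q` and level `U J` span a space of dimension exactly `r [K_0 : J] dim Q` (`J ⊆ K_0`).
Either the statement of Buzzard and Gee (`BGSys`: eigenvalues in a number field `E`, an attached homomorphism for every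
embedding `E → ℚ̄_ℓ`) holds for all systems of all weights and all levels at `ℓ`, or there is `C` such that for all `s`,
all levels `J ⊆ K_s` at `ℓ` and all `Q` the eigenforms with weights in `Q` and level `U J` for which it fails span a space
of dimension `≥ (1 - C ℓ ^ (-s)) [K_0 : J] dim Q`. -/
theorem result {F : Type} [Field F] [NumberField F] [IsTotallyReal F] {n : ℕ} (D : Datum F n)
    (hD : IsTotPosDef D.q) (ℓ : ℕ) [Fact ℓ.Prime]
    {B : Type} [CommRing B] [IsDomain B] [IsPrincipalIdealRing B] [Algebra B ℚ]
    [IsFractionRing B ℚ] [Algebra B (PadicAlgCl ℓ)]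
    {O : Type} [CommRing O] [HopfAlgebra B O] [Algebra.FiniteType B O] [Module.Free B O]
    (hO : LinearlyReductive (ℚ ⊗[B] O)) (A : OverB.HopfAction B Gal(AlgebraicClosure F/F) O)
    (hA : IsOpen (A.act.ker : Set Gal(AlgebraicClosure F/F)))
    (S : Finset (HeightOneSpectrum (𝓞 F)))
    (hS : ∀ v, v ∉ S → ∀ P u, IsInertiaAt v P u → A.act u = 1)
    (hSl : ∀ v : HeightOneSpectrum (𝓞 F), (ℓ : 𝓞 F) ∈ v.asIdeal → v ∈ S)
    (φ : HeightOneSpectrum (𝓞 F) → Gal(AlgebraicClosure F/F))
    (hφ : ∀ v, v ∉ S → ∃ P : Ideal (𝓞 (AlgebraicClosure F)), IsOver v P ∧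
      (IsFrob v P (φ v) ∨ IsFrob v P (φ v)⁻¹))
    (U : Subgroup D.Ad) (hU : IsTame ℓ U) (hUS : ∀ v, v ∉ S → IsGoodAt U v)
    (sat : ∀ v, InvFun A (φ v) → Hecke U v) (hsat : ∀ v f, (sat v f).IsIntegral ℓ)
    (d : ℕ) (K : ℕ → Subgroup D.Ad) (hK : IsUniform ℓ d U K) :
    (∀ ι : ℂ ≃+* PadicAlgCl ℓ,
      (∃ (k : ℕ) (C : Fin k → Set (∀ v, Hecke U v → ℂ)) (a : Fin k → ℕ), IsFamilies ℓ S K ι C a ∧
        ∀ (k' : ℕ) (C' : Fin k' → Set (∀ v, Hecke U v → ℂ)) (a' : Fin k' → ℕ), IsFamilies ℓ S K ι C' a' →
          ∃ σ : Fin k ≃ Fin k', ∀ i, C' (σ i) = C i ∧ a' (σ i) = a i) ∧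
      IsNoeth ℓ S U ι ∧ IsClosedProp ℓ S ι (HasAtt ℓ A S φ sat ι) ∧
      ∀ P : MvPolynomial (IX ℓ S U) ℤ, IsClosedProp ℓ S ι fun lam => pval ℓ S lam P = 0) ∧
    (Count ℓ S U K fun _ => True) ∧
    ((∀ lam ∈ AllSys ℓ S U, BGSys ℓ A S φ sat lam) ∨ Abundant ℓ S U K fun lam => ¬BGSys ℓ A S φ sat lam) :=
  main' hD hO A hA hS hSl φ hφ hU hUS sat hsat hK

end Pool.Agent.Results.MP_666dc0_nt.Families
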