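import Pool.Agent.Lib.MP_666dc0_nt.PL.ST3

open NumberField IsDedekindDomain TensorProduct Pool.Agent.Lib.MP_666dc0_nt
  Pool.Agent.Lib.MP_666dc0_nt.WL Pool.Agent.Lib.MP_666dc0_nt.ZO Pool.Agent.Lib.MP_666dc0_nt.FM
  Pool.Agent.Lib.MP_666dc0_nt.PL
open scoped NumberField TensorProduct

namespace Pool.Agent.Results.MP_666dc0_nt.SteinbergReduction

/-- **For groups that are compact at infinity the conjecture of Buzzard and Gee follows from its case of Steinberg forms.**

`F` is a totally real number field and `G ⊆ GL_n` the group over `F` of all matrices that fix a symmetric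
matrix `q`, totally positive definite, and finitely many tensors (the datum `D`). `Ĝ = Spec O`, `ᴸG = Ĝ ⋊ Γ_F`,
the finite set `S` of places (all places above the prime `ℓ` are in it), Frobenius elements `φ v`, a tame level `U`
(open and compact outside `ℓ`) which is good outside `S`, and maps `sat v` from the invariant functions on `Ĝ ⋊ φ v` (`InvFun`)
to the `ℓ`-integral Hecke operators are as in the hand-in Families. `AllSys` is the set of the systems of
Hecke eigenvalues (outside `S`) of the eigenforms of tame level `U`, of ALL weights and ALL levels at `ℓ`.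
No Galois representations, and no finiteness properties of Hecke algebras, are assumed. `BGSys` is the statement of Buzzard and Gee
for a system: the eigenvalues are in a number field `E` and for every embedding `E → ℚ̄_ℓ`
there is an attached homomorphism `Γ_F → ᴸG(ℚ̄_ℓ)`.

`Q` is a Følner sequence of weights (`IsFolner`): a sequence of finite-dimensional spaces `Q_d` of polynomial functions on `G(F ⊗ ℂ)`, stable
under right translations, such that for every `m` the elements of `Q_d` whose products with all polynomials of degree `≤ m` stay in `Q_d`
form a subspace of relative dimension tending to one. (0) For example: right stable spaces of polynomial functions of degree `≤ d` whose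
dimensions are asymptotic to that of the space of all polynomial functions of degree `≤ d` (only regular weights, or only weights
far from the walls of the Weyl chamber).

(A) Let `I` be a level at `ℓ` with reflections `s_1, …, s_k` (`IsIwahori`: the sets `I ∪ I s_j I` are groups, different from `I`, and
`σ = ∑ 1 / [I ∪ I s_j I : I] < 1`). For instance, the component of `I` at one place `v ∣ ℓ` is an Iwahori subgroup, the component at the
other places above `ℓ` is anything, the `s_j` are the simple affine reflections at `v`, and `q_v + 1` is greater than their number. The Steinberg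
forms are the forms `f` of level `U I` with `T_(s_j) f = - f` for all `j`: in the example, those which generate at `v` the Steinberg
representation up to an unramified twist. Let `T i = (J_i, ρ_i)` be types at `ℓ`, `I ⊆ J_i`, and `c_i` real numbers with
`∑ c_i (dim ρ_i) / [J_i : I] > 0` (`IsTestSt`). The following statements are equivalent:
1. `BGSys` holds for all systems, of all weights and all levels at `ℓ`;
2. for infinitely many `d`, `BGSys` holds for the systems of the Steinberg forms with weights in `Q_d`;
3. for some `x < (1 - σ) / r` and infinitely many `d` the share of the Steinberg forms with weights in `Q_d` which violate `BGSys` is at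
  most `x`;
4. for infinitely many `d`, `BGSys` holds for the systems whose multiplicities `m_i` in the forms of type `T i` with weights in
  `Q_d` satisfy `∑ c_i m_i > 0` (for instance, the systems of the forms of one type; or Euler–Poincaré functions, which select the
  Steinberg representation for all `q_v`).
Here `r ≥ 1` does not depend on `Q`, `I`, the `s_j`, the `T i` and the `c_i`.

(B) More precisely, if `BGSys` fails for the system `lam₀`, of any weight and any level at `ℓ`, then the systems for which it fails and which have the
same residual system as `lam₀` (`SameRes`) are abundant (`IsAbundantSt`): for all large `d` some of them occur in Steinberg forms, and some have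
`∑ c_i m_i > 0`; their share among the Steinberg forms is at least `(1 - σ) / r - o(1)`.

Relation to the literature: congruences with forms that are supercuspidal at `ℓ`, of the same weight, are due to Emerton and Paškūnas
(definite unitary groups) and to Fintzen and Shin (all groups compact modulo centre at infinity, `ℓ` large). The known constructions of Galois
representations for general symplectic and even orthogonal groups (Kret and Shin) need a Steinberg component, not a supercuspidal one: for
compact inner forms of `PGSp_2n` and `SO_2n` they give 2. (for the weights they allow), and the theorem then gives 1., that is the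
conjecture (up to semisimplicity) for all automorphic representations of these groups. This use is not part of the Lean statement. -/
theorem result {F : Type} [Field F] [NumberField F] [IsTotallyReal F] {n : ℕ} (D : Datum F n)
    (hD : IsTotPosDef D.q) (ℓ : ℕ) [Fact ℓ.Prime]
    {B : Type} [CommRing B] [IsDomain B] [IsPrincipalIdealRing B] [Algebra B ℚ]
    [IsFractionRing B ℚ] [Algebra B (PadicAlgCl ℓ)]
    {O : Type} [CommRing O] [HopfAlgebra B O] [Algebra.FiniteType B O] [Module.Free B O]
    (hO : LinearlyReductive (ℚ ⊗[B] O)) (A : OverB.HopfAction B Gal(AlgebraicClosure F/F) O)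
    (hA : IsOpen (A.act.ker : Set Gal(AlgebraicClosure F/F)))
    (S : Finset (HeightOneSpectrum (𝓞 F)))
    (hS : ∀ v, v ∉ S → ∀ P u, IsInertiaAt v P u → A.act u = 1)
    (hSl : ∀ v : HeightOneSpectrum (𝓞 F), (ℓ : 𝓞 F) ∈ v.asIdeal → v ∈ S)
    (φ : HeightOneSpectrum (𝓞 F) → Gal(AlgebraicClosure F/F))
    (hφ : ∀ v, v ∉ S → ∃ P : Ideal (𝓞 (AlgebraicClosure F)), IsOver v P ∧
      (IsFrob v P (φ v) ∨ IsFrob v P (φ v)⁻¹))
    (U K₁ : Subgroup D.Ad) (hU : IsTame ℓ U) (hK₁ : IsLevel ℓ U K₁) (hUS : ∀ v, v ∉ S → IsGoodAt U v)
    (sat : ∀ v, InvFun A (φ v) → Hecke U v) (hsat : ∀ v f, (sat v f).IsIntegral ℓ) :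
    ∃ r : ℕ, 0 < r ∧
    (∀ Q, (∀ d, IsWeight D (Q d)) → (∀ d, Q d ≤ polyLE D d) → Filter.Tendsto
      (fun d => (Module.finrank ℂ (Q d) : ℝ) / Module.finrank ℂ (polyLE D d)) Filter.atTop (nhds 1) → IsFolner D Q) ∧
    ∀ Q I k (s : Fin k → D.Ad) m (T : Fin m → RepType D) c, IsTestSt ℓ U Q I s T c →
      (∀ lam₀ ∈ AllSys ℓ S U, ¬BGSys ℓ A S φ sat lam₀ → ∃ ι : ℂ ≃+* PadicAlgCl ℓ,
        IsAbundantSt S r (fun lam => SameRes ℓ S ι lam lam₀ ∧ ¬BGSys ℓ A S φ sat lam) Q I s T c) ∧
      List.TFAE [
        ∀ lam ∈ AllSys ℓ S U, BGSys ℓ A S φ sat lam,
        ∃ᶠ d in Filter.atTop, ∀ lam f, IsSteinberg D (Q d) U I s f → f ≠ 0 → IsEigen S f lam →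
          BGSys ℓ A S φ sat lam,
        ∃ x : ℝ, x < (1 - sumRefl I s) / r ∧ ∃ᶠ d in Filter.atTop,
          (dimSt U S (Q d) I s (fun lam => ¬BGSys ℓ A S φ sat lam) : ℝ) ≤ x * dimSt U S (Q d) I s (fun _ => True),
        ∃ᶠ d in Filter.atTop, ∀ lam, 0 < ∑ i, c i * dimR S (Q d) (T i) (· = lam) → BGSys ℓ A S φ sat lam] :=
  mainSt hD hO A hA hS hSl φ hφ hU hK₁ hUS sat hsat

end Pool.Agent.Results.MP_666dc0_nt.SteinbergReduction
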