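import Pool.Agent.Lib.MP_666dc0_nt.EH.B4
import Pool.Agent.Lib.MP_666dc0_nt.EH.One
import Pool.Agent.Lib.MP_666dc0_nt.FM.VDefs

/-!
# Galois representations and arithmetic groups: all weights from one, with local conditions

Let `G` be the stabiliser of a non-degenerate bilinear form and of finitely many tensors over a number
field `F` (`Datum`) such that the `SL_n(F ⊗ ℝ)`-orbit of the form and the tensors is closed, let
`U K ⊆ G(𝔸_f)` be an open compact subgroup (`U` away from `ℓ`, `K` above `ℓ`), and let `ᴸG` be a group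
scheme over `B` (a principal ideal domain with fraction field `ℚ`) with an action of the Galois group.
Let `S` be a finite set of places which contains the places above `ℓ` and the places where `U` is not
good.

**Local conditions.** Let `𝓗` be any set of complex Hecke functions `h` at the places in `S` that do not
divide `ℓ` (`BadHecke`), such that `σ ∘ h ∈ 𝓗` for `h ∈ 𝓗` and all automorphisms `σ` of `ℂ`
(`IsStable`). The operators `T_h` commute with the Hecke operators outside `S`, but not with each other.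
For an eigensystem `lam` of the Hecke algebras outside `S`, an algebraic representation `V` of
`G(F ⊗ ℂ)` and a smooth representation `s` of `K` let
`e_h(lam; V ⊗ s) = ∑ (-1)^m tr (T_h | H^m(V ⊗ s)[lam])` (`eulerTrace`; generalised eigenspaces).
We consider the eigensystems with `e_h(lam; V ⊗ s) ≠ 0` for some `h ∈ 𝓗`.

Examples (explanations, they are not used): `𝓗 = {1}`: `e_1` is the Euler characteristic
`∑ (-1)^m dim H^m(V ⊗ s)[lam]` (`eulerTrace_unit`, `euler_characteristic` below); `h` the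
Euler-Poincaré function of Kottwitz of `G(F_p)` for a place `p ∈ S` not above `ℓ`: the automorphic
representations whose component at `p` is a Steinberg representation; the pseudo-coefficients of the
conjugates of a discrete series representation at `p`; the idempotents of the conjugates of a type at
`p`; all functions `h`: the eigensystems for which the virtual module `∑ (-1)^m H^m(V ⊗ s)[lam]` of the
Hecke algebra of `S` away from `ℓ` is not zero. (All these numbers can be zero if `G(F ⊗ ℝ)` has no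
discrete series modulo the centre; the equivalence is then empty.)

The following statements are equivalent:

1. The question of Buzzard and Gee has a positive answer for all eigensystems with
   `e_h(lam; V ⊗ s) ≠ 0` for some `h ∈ 𝓗`, for all `V` and `s`: their Satake parameters are defined over
   a number field `E` and for every embedding `E → ℚ̄_ℓ` there is an attached homomorphism of the Galois
   group to `ᴸG(ℚ̄_ℓ)`.
2. This holds for trivial `V`, that is for weight zero.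
3. There are one isomorphism `ι : ℂ ≃ ℚ̄_ℓ` and one set `𝒯` of pairs `(V, s)` such that homomorphisms to
   `ᴸG(ℚ̄_ℓ)` are attached to the images under `ι` of the eigensystems with `e_h(lam; V ⊗ s) ≠ 0` for
   some `h ∈ 𝓗`, for all `(V, s) ∈ 𝒯`, where the characters of the `V ⊗ s`, `(V, s) ∈ 𝒯`, are
   `ℓ`-adically dense (`IsDense`), or `𝒯` contains the pairs `(V, s)` with one `V` and all `s`, and the
   character of this `V` has no zero on `K` (or `K` is pro-`ℓ` and the dimension of `V` is prime to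
   `ℓ`).
-/

open NumberField IsDedekindDomain TensorProduct
open scoped NumberField TensorProduct

namespace Pool.Agent.Results.MP_666dc0_nt.WeightIndependence

open Pool.Agent.Lib.MP_666dc0_nt Pool.Agent.Lib.MP_666dc0_nt.EC Pool.Agent.Lib.MP_666dc0_nt.WL
  Pool.Agent.Lib.MP_666dc0_nt.EH Pool.Agent.Lib.MP_666dc0_nt.FM

/-- The eigensystem `lam` occurs in the cohomology with coefficients in `V ⊗ s` (with respect to the
local conditions `𝓗`): the number `e_h(lam; V ⊗ s)` is not zero for some `h ∈ 𝓗`. -/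
def Occurs {F : Type} [Field F] [NumberField F] {n : ℕ} {D : Datum F n} {ℓ : ℕ} [Fact ℓ.Prime]
    {U K : Subgroup D.Ad} {S : Finset (HeightOneSpectrum (𝓞 F))} (𝓗 : Set (BadHecke ℓ S U))
    (V : Weight D) (s : SmRep K) (lam : ∀ v, Hecke U v → ℂ) : Prop :=
  ∃ h ∈ 𝓗, eulerTrace V s lam h ≠ 0

/-- The statement of Buzzard and Gee for the eigensystem `lam`: the values `lam v (sat v f)` at the places
`v ∉ S` are in a number field `E ⊆ ℂ`, and for every embedding `ι : E → ℚ̄_ℓ` there is a homomorphism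
`Γ_F → ᴸG(ℚ̄_ℓ)` attached to their images (`HasRep`). -/
def Q1 {F : Type} [Field F] [NumberField F] {n : ℕ} {D : Datum F n} {U : Subgroup D.Ad} (ℓ : ℕ)
    [Fact ℓ.Prime] {B : Type} [CommRing B] [Algebra B (PadicAlgCl ℓ)] {O : Type} [CommRing O]
    [HopfAlgebra B O] (A : OverB.HopfAction B Gal(AlgebraicClosure F/F) O)
    (S : Finset (HeightOneSpectrum (𝓞 F)))
    (φ : HeightOneSpectrum (𝓞 F) → Gal(AlgebraicClosure F/F))
    (sat : ∀ v, InvFun A (φ v) → Hecke U v) (lam : ∀ v, Hecke U v → ℂ) : Prop :=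
  ∃ (E : IntermediateField ℚ ℂ) (μ : ∀ v, InvFun A (φ v) → E), FiniteDimensional ℚ E ∧
    (∀ v, v ∉ S → ∀ f, (μ v f : ℂ) = lam v (sat v f)) ∧
      ∀ ι : E →+* PadicAlgCl ℓ, HasRep ℓ A S φ fun v f => ι (μ v f)

private theorem hasRep_iff {F : Type} [Field F] [NumberField F] {ℓ : ℕ} [Fact ℓ.Prime]
    {B : Type} [CommRing B] [Algebra B (PadicAlgCl ℓ)] {O : Type} [CommRing O] [HopfAlgebra B O]
    {A : OverB.HopfAction B Gal(AlgebraicClosure F/F) O} {S : Finset (HeightOneSpectrum (𝓞 F))}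
    {φ : HeightOneSpectrum (𝓞 F) → Gal(AlgebraicClosure F/F)}
    (e : ∀ v, InvFun A (φ v) → PadicAlgCl ℓ) :
    HasRep ℓ A S φ e ↔ ∃ r : Gal(AlgebraicClosure F/F) →* A.LGroup (PadicAlgCl ℓ),
      OverB.IsAttachedTo A S φ (fun v (f : A.inv (φ v)) => e v ⟨f.1, f.2⟩) r := by
  constructor
  · rintro ⟨r, h1, h2, h3⟩
    exact ⟨r, ⟨h1, h2, fun v hv => (h3 v hv).1, fun v hv f => (h3 v hv).2 ⟨f.1, f.2⟩⟩⟩
  · rintro ⟨r, h⟩
    exact ⟨r, h.proj, h.cont, fun v hv => ⟨h.unram v hv, fun f => h.value v hv ⟨f.1, f.2⟩⟩⟩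

theorem result {F : Type} [Field F] [NumberField F] {n : ℕ} {D : Datum F n}
    (hq : D.q.det ≠ 0) (hcl : HasClosedOrbit D)
    {ℓ : ℕ} [Fact ℓ.Prime] {U K : Subgroup D.Ad} (hU : IsTame ℓ U) (hK : IsLevel ℓ U K)
    (S : Finset (HeightOneSpectrum (𝓞 F)))
    (hSl : ∀ v : HeightOneSpectrum (𝓞 F), (ℓ : 𝓞 F) ∈ v.asIdeal → v ∈ S)
    (hgood : ∀ v, v ∉ S → IsGoodAt U v)
    {B : Type} [CommRing B] [IsDomain B] [IsPrincipalIdealRing B] [Algebra B ℚ]
    [IsFractionRing B ℚ] [Algebra B (PadicAlgCl ℓ)]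
    {O : Type} [CommRing O] [HopfAlgebra B O] [Algebra.FiniteType B O] [Module.Free B O]
    (hO : LinearlyReductive (ℚ ⊗[B] O)) (A : OverB.HopfAction B Gal(AlgebraicClosure F/F) O)
    (hA : IsOpen (A.act.ker : Set Gal(AlgebraicClosure F/F)))
    (hS : ∀ v, v ∉ S → ∀ P u, IsInertiaAt v P u → A.act u = 1)
    (φ : HeightOneSpectrum (𝓞 F) → Gal(AlgebraicClosure F/F))
    (hφ : ∀ v, v ∉ S → ∃ P : Ideal (𝓞 (AlgebraicClosure F)), IsOver v P ∧
      (IsFrob v P (φ v) ∨ IsFrob v P (φ v)⁻¹))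
    (sat : ∀ v, InvFun A (φ v) → Hecke U v) (hsat : ∀ v f, (sat v f).IsIntegral ℓ)
    {𝓗 : Set (BadHecke ℓ S U)} (h𝓗 : IsStable 𝓗) :
    List.TFAE [
      ∀ (V : Weight D) (s : SmRep K) (lam : ∀ v, Hecke U v → ℂ),
        Occurs 𝓗 V s lam → Q1 ℓ A S φ sat lam,
      ∀ (s : SmRep K) (lam : ∀ v, Hecke U v → ℂ),
        Occurs 𝓗 (Weight.triv D) s lam → Q1 ℓ A S φ sat lam,
      ∃ (ι : ℂ ≃+* PadicAlgCl ℓ) (H : HatData F ℓ ι) (𝒯 : Weight D → SmRep K → Prop),
        (IsDense H K 𝒯 ∨ ∃ V : Weight D, (∀ s, 𝒯 V s) ∧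
          (NoZero H V K ∨ IsPro ℓ K ∧ ¬ ℓ ∣ Fintype.card V.J)) ∧
        ∀ (V : Weight D) (s : SmRep K), 𝒯 V s → ∀ lam : ∀ v, Hecke U v → ℂ,
          Occurs 𝓗 V s lam → HasAtt ℓ A S φ sat ι lam] := by
  have h := main hq hcl hU hK S hSl hgood hO A hA hS φ hφ (fun v (f : A.inv (φ v)) => sat v ⟨f.1, f.2⟩)
    (fun v f => hsat v _) h𝓗
  have h1 : ∀ lam : ∀ v, Hecke U v → ℂ, Q1 ℓ A S φ sat lam ↔
      EC.Q1 ℓ A S φ (fun v (f : A.inv (φ v)) => sat v ⟨f.1, f.2⟩) lam := fun lam =>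
    exists_congr fun E => exists_congr fun μ => and_congr Iff.rfl <| and_congr Iff.rfl <|
      forall_congr' fun ι => hasRep_iff _
  have h2 : ∀ (ι : ℂ ≃+* PadicAlgCl ℓ) (lam : ∀ v, Hecke U v → ℂ), HasAtt ℓ A S φ sat ι lam ↔
      ∃ r : Gal(AlgebraicClosure F/F) →* A.LGroup (PadicAlgCl ℓ), OverB.IsAttachedTo A S φ
        (fun v (f : A.inv (φ v)) => ι (lam v (sat v ⟨f.1, f.2⟩))) r := fun ι lam => hasRep_iff _
  simp only [h1, h2]
  exact h

/-- The case `𝓗 = {1}`: the Euler characteristics of the eigensystems (the earlier form of this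
hand-in). -/
theorem euler_characteristic {F : Type} [Field F] [NumberField F] {n : ℕ} {D : Datum F n}
    (hq : D.q.det ≠ 0) (hcl : HasClosedOrbit D)
    {ℓ : ℕ} [Fact ℓ.Prime] {U K : Subgroup D.Ad} (hU : IsTame ℓ U) (hK : IsLevel ℓ U K)
    (S : Finset (HeightOneSpectrum (𝓞 F)))
    (hSl : ∀ v : HeightOneSpectrum (𝓞 F), (ℓ : 𝓞 F) ∈ v.asIdeal → v ∈ S)
    (hgood : ∀ v, v ∉ S → IsGoodAt U v)
    {B : Type} [CommRing B] [IsDomain B] [IsPrincipalIdealRing B] [Algebra B ℚ]
    [IsFractionRing B ℚ] [Algebra B (PadicAlgCl ℓ)]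
    {O : Type} [CommRing O] [HopfAlgebra B O] [Algebra.FiniteType B O] [Module.Free B O]
    (hO : LinearlyReductive (ℚ ⊗[B] O)) (A : OverB.HopfAction B Gal(AlgebraicClosure F/F) O)
    (hA : IsOpen (A.act.ker : Set Gal(AlgebraicClosure F/F)))
    (hS : ∀ v, v ∉ S → ∀ P u, IsInertiaAt v P u → A.act u = 1)
    (φ : HeightOneSpectrum (𝓞 F) → Gal(AlgebraicClosure F/F))
    (hφ : ∀ v, v ∉ S → ∃ P : Ideal (𝓞 (AlgebraicClosure F)), IsOver v P ∧
      (IsFrob v P (φ v) ∨ IsFrob v P (φ v)⁻¹))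
    (sat : ∀ v, InvFun A (φ v) → Hecke U v) (hsat : ∀ v f, (sat v f).IsIntegral ℓ) :
    List.TFAE [
      ∀ (V : Weight D) (s : SmRep K) (lam : ∀ v, Hecke U v → ℂ), euler V s ℓ S lam ≠ 0 →
        Q1 ℓ A S φ sat lam,
      ∀ (s : SmRep K) (lam : ∀ v, Hecke U v → ℂ), euler (Weight.triv D) s ℓ S lam ≠ 0 →
        Q1 ℓ A S φ sat lam,
      ∃ (ι : ℂ ≃+* PadicAlgCl ℓ) (H : HatData F ℓ ι) (V : Weight D),
        (NoZero H V K ∨ IsPro ℓ K ∧ ¬ ℓ ∣ Fintype.card V.J) ∧
        ∀ (s : SmRep K) (lam : ∀ v, Hecke U v → ℂ), euler V s ℓ S lam ≠ 0 →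
          HasAtt ℓ A S φ sat ι lam] := by
  have heq : ∀ (V : Weight D) (s : SmRep K) (lam : ∀ v, Hecke U v → ℂ),
      Occurs ({BadHecke.unit ℓ S U} : Set (BadHecke ℓ S U)) V s lam ↔ euler V s ℓ S lam ≠ 0 := by
    intro V s lam
    unfold Occurs
    simp only [Set.mem_singleton_iff, exists_eq_left, eulerTrace_unit]
    exact Int.cast_ne_zero
  have h := result hq hcl hU hK S hSl hgood hO A hA hS φ hφ sat hsat
    (isStable_unit (ℓ := ℓ) (S := S) (U := U))
  simp only [heq] at h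
  tfae_have 1 ↔ 2 := h.out 0 1
  tfae_have 1 → 3 := by
    intro h1
    have h3 := (h.out 0 2).1 h1
    obtain ⟨ι, H, -⟩ := h3
    refine ⟨ι, H, Weight.triv D, Or.inl fun k _ x _ => triv_trace_ne_zero x, fun s lam hlam => ?_⟩
    obtain ⟨E, μ, -, hμ, hr⟩ := h1 (Weight.triv D) s lam hlam
    obtain ⟨r, hr1, hr2, hr3⟩ := hr ((ι : ℂ →+* PadicAlgCl ℓ).comp (algebraMap E ℂ))
    refine ⟨r, hr1, hr2, fun v hv => ⟨(hr3 v hv).1, fun f => ?_⟩⟩
    rw [(hr3 v hv).2 f]
    exact congrArg ι (hμ v hv f)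
  tfae_have 3 → 1 := by
    rintro ⟨ι, H, V, hV, h'⟩
    have h1 := h.out 2 0
    refine h1.1 ⟨ι, H, fun V' _ => V' = V, Or.inr ⟨V, fun _ => rfl, hV⟩, ?_⟩
    rintro _ s rfl lam hlam
    exact h' s lam hlam
  tfae_finish

end Pool.Agent.Results.MP_666dc0_nt.WeightIndependence
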